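import Pool.Agent.V5helper19.ER.All

set_option autoImplicit false

namespace Pool.Agent.Results.MP_c6b05a_co.AlternatingRobust

/-- The derangements of a permutation group `G ≤ Sym(n)`. -/
def Der {n : ℕ} (G : Subgroup (Equiv.Perm (Fin n))) : Set G :=
  {g | ∀ i : Fin n, (g : Equiv.Perm (Fin n)) i ≠ i}

/-- The Cayley graph `Cay(G, C)`: `g` and `h` are adjacent iff `g ≠ h` and `g⁻¹ h ∈ C` or
`h⁻¹ g ∈ C` (for `C` closed under inverses and not containing `1` this is `g⁻¹ h ∈ C`). -/
def Cay {G : Type} [Group G] (C : Set G) : SimpleGraph G :=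
  SimpleGraph.fromRel fun g h => g⁻¹ * h ∈ C

/-- The number of labels in `X`: the number of different sets `{d, d⁻¹}` with `d ∈ X`. -/
noncomputable def labels {G : Type} [Group G] (X : Set G) : ℕ :=
  Set.ncard ((fun d => ({d, d⁻¹} : Set G)) '' X)

/-- `d_G`: the minimum over `i ≠ j` of the number of labels in
`D_{i → j} = {g ∈ Der(G) : g(i) = j}`. -/
noncomputable def dG {n : ℕ} (G : Subgroup (Equiv.Perm (Fin n))) : ℕ :=
  sInf {m | ∃ i j : Fin n, i ≠ j ∧
    m = labels {g : G | g ∈ Der G ∧ (g : Equiv.Perm (Fin n)) i = j}}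

/-- `G` is EKR robust: `α(Cay(G, Der(G) \ D)) = |G| / n` for every inverse-closed
`D ⊆ Der(G)` with fewer than `d_G` labels. -/
def EKRRobust {n : ℕ} (G : Subgroup (Equiv.Perm (Fin n))) : Prop :=
  ∀ D : Set G, D ⊆ Der G → (∀ d ∈ D, d⁻¹ ∈ D) → labels D < dG G →
    n * (Cay (Der G \ D)).indepNum = Nat.card G

/-- The alternating group `A_n` in its natural action is EKR robust for all large `n`. -/
theorem result : ∃ N : ℕ, ∀ n : ℕ, N ≤ n → EKRRobust (alternatingGroup (Fin n)) :=
  V5helper19.ER.all_robust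

end Pool.Agent.Results.MP_c6b05a_co.AlternatingRobust
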